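import Pool.Agent.Helper95.BG.Goals

/-!
# Boolean grammars: a local language is described by numbers
-/

namespace Pool.Agent.Helper15.BG.PkCODE

open Pool.Agent.Helper65.LinSpace Pool.Agent.Helper78 Pool.Agent.Helper78.Mpc
  Pool.Agent.Helper78.Xor Pool.Agent.Helper95.BG Finset

theorem dig_two_pow (s t : ℕ) : dig 2 (2 ^ s) t = 1 ↔ t = s := by
  unfold dig
  rcases lt_trichotomy t s with h | h | h
  · have h1 : (2 : ℕ) ^ s / 2 ^ t = 2 ^ (s - t) := Nat.pow_div h.le (by norm_num)
    rw [h1]
    obtain ⟨d, hd⟩ : ∃ d, s - t = d + 1 := ⟨s - t - 1, by omega⟩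
    rw [hd, pow_succ, Nat.mul_mod_left]
    constructor
    · intro h2
      omega
    · intro h2
      omega
  · subst h
    rw [Nat.div_self (by positivity)]
    simp
  · have h1 : (2 : ℕ) ^ s / 2 ^ t = 0 :=
      Nat.div_eq_of_lt (Nat.pow_lt_pow_right (by norm_num) h)
    rw [h1]
    constructor
    · intro h2
      simp at h2
    · intro h2
      omega

theorem pair_inj {N a b c d : ℕ} (hb : b < N) (hd : d < N)
    (h : a * N + b = c * N + d) : a = c ∧ b = d := by
  have hN : 0 < N := by omega
  have h1 : (a * N + b) / N = a := by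
    rw [mul_comm, Nat.mul_add_div hN, Nat.div_eq_of_lt hb, add_zero]
  have h2 : (c * N + d) / N = c := by
    rw [mul_comm, Nat.mul_add_div hN, Nat.div_eq_of_lt hd, add_zero]
  have h3 : a = c := by rw [← h1, h, h2]
  subst h3
  exact ⟨rfl, by omega⟩

/-- The factor from `i` to `j`. -/
def seg {T : Type} (w : List T) (i j : ℕ) : List T := (w.drop i).take (j - i)

theorem seg_length {T : Type} (w : List T) {i j : ℕ} (hj : j ≤ w.length) :
    (seg w i j).length = j - i := by
  unfold seg
  rw [List.length_take, List.length_drop]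
  omega

theorem seg_append {T : Type} (w : List T) {i k j : ℕ} (hik : i ≤ k) (hkj : k ≤ j) :
    seg w i k ++ seg w k j = seg w i j := by
  unfold seg
  have h1 : j - i = (k - i) + (j - k) := by omega
  rw [h1, List.take_add, List.drop_drop, Nat.add_sub_cancel' hik]

theorem seg_split {T : Type} (w : List T) {i j : ℕ} (hj : j ≤ w.length) (hij : i ≤ j)
    {u v : List T} (h : u ++ v = seg w i j) :
    u = seg w i (i + u.length) ∧ v = seg w (i + u.length) j := by
  have hl : u.length + v.length = j - i := by
    rw [← seg_length w hj, ← h, List.length_append]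
  have h1 : seg w i (i + u.length) ++ seg w (i + u.length) j = u ++ v := by
    rw [seg_append w (by omega) (by omega), h]
  have h2 : (seg w i (i + u.length)).length = u.length := by
    rw [seg_length w (by omega)]
    omega
  have h3 := List.append_inj h1 h2
  exact ⟨h3.1.symm, h3.2.symm⟩

theorem thm : G_CODE := by
  classical
  intro T _ K ⟨X, _, μ, Ψ, F, hμ, hF⟩
  obtain ⟨N, ⟨e⟩⟩ := Finite.exists_equiv_fin X
  -- the number of a value
  set c : X → ℕ := fun x => (e x : ℕ) with hc
  have hcN : ∀ x, c x < N := fun x => (e x).isLt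
  have hcinj : ∀ x y, c x = c y → x = y := fun x y h => e.injective (Fin.ext h)
  have hN : 0 < N := lt_of_le_of_lt (Nat.zero_le _) (hcN (μ []))
  have hsurj : ∀ n < N, ∃ x, c x = n := fun n hn => ⟨e.symm ⟨n, hn⟩, by simp [hc]⟩
  set q : ℕ := N * N with hq
  have hNq : N ≤ q := by
    rw [hq]
    exact Nat.le_mul_of_pos_left _ hN
  have hq2 : N < 2 ^ q := lt_of_le_of_lt hNq Nat.lt_two_pow_self
  have hidx : ∀ a b, a < N → b < N → a * N + b < q := by
    intro a b ha hb
    have := Nat.mul_le_mul_right N (show a + 1 ≤ N from ha)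
    rw [Nat.succ_mul] at this
    omega
  -- the tables
  set btf : ℕ → ℕ := fun z => if z / 2 ^ q < N ∧ z % 2 ^ q < N then
    2 ^ (z / 2 ^ q * N + z % 2 ^ q) else 0 with hbtf
  have hbtf_lt : ∀ z, btf z < 2 ^ q := by
    intro z
    simp only [hbtf]
    split_ifs with h
    · exact Nat.pow_lt_pow_right (by norm_num) (hidx _ _ h.1 h.2)
    · positivity
  set BT : ℕ := tab (2 ^ q) (2 ^ q * 2 ^ q) btf with hBT
  have hbt : ∀ x y, btN q BT (c x) (c y) = 2 ^ (c x * N + c y) := by
    intro x y
    have hx := hcN x
    have hy := hcN y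
    have h1 : c x * 2 ^ q + c y < 2 ^ q * 2 ^ q := by
      have := Nat.mul_le_mul_right (2 ^ q) (show c x + 1 ≤ 2 ^ q by omega)
      rw [Nat.succ_mul] at this
      omega
    unfold btN
    rw [hBT, dig_tab (fun z _ => hbtf_lt z) h1]
    have h2 : (c x * 2 ^ q + c y) / 2 ^ q = c x := div_eq_block (by omega)
    have h3 : (c x * 2 ^ q + c y) % 2 ^ q = c y := mod_eq_block (by omega)
    simp only [hbtf]
    rw [h2, h3, if_pos ⟨hx, hy⟩]
  set psf : ℕ → ℕ := fun m => c (Ψ {p | dig 2 m (c p.1 * N + c p.2) = 1}) with hpsf
  have hpsf_lt : ∀ m, psf m < 2 ^ q := fun m => lt_trans (hcN _) hq2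
  set PS : ℕ := tab (2 ^ q) (2 ^ q) psf with hPS
  have hps : ∀ m < 2 ^ q, psN q PS m = psf m := by
    intro m hm
    unfold psN
    rw [hPS, dig_tab (fun z _ => hpsf_lt z) hm]
  set acf : ℕ → ℕ := fun n => if ∃ x ∈ F, c x = n then 1 else 0 with hacf
  have hacf_lt : ∀ n, acf n < 2 := by
    intro n
    simp only [hacf]
    split_ifs <;> norm_num
  set AC : ℕ := tab 2 N acf with hAC
  have hac : ∀ x, dig 2 AC (c x) ≠ 0 ↔ x ∈ F := by
    intro x
    rw [hAC, dig_tab (fun z _ => hacf_lt z) (hcN x)]
    simp only [hacf]
    split_ifs with h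
    · obtain ⟨y, hy, hyx⟩ := h
      rw [hcinj _ _ hyx] at hy
      simp [hy]
    · constructor
      · intro h1
        exact absurd rfl h1
      · intro h1
        exact absurd ⟨x, h1, rfl⟩ h
  refine ⟨q, BT, PS, AC, fun t => c (μ [t]), fun t => lt_trans (hcN _) hq2, ?_⟩
  intro w lt hw hlt
  have key : ∀ d i j, j - i ≤ d → i < j → j ≤ w.length →
      V q lt (btN q BT) (psN q PS) i j = c (μ (seg w i j)) := by
    intro d
    induction d with
    | zero =>
      intro i j h1 h2 h3
      omega
    | succ d ih =>
      intro i j h1 h2 h3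
      rw [V_eq, if_neg (by omega)]
      split_ifs with h4
      · subst h4
        rw [hlt i (by omega)]
        have h5 : seg w i (i + 1) = [w[i]'(by omega)] := by
          unfold seg
          rw [Nat.add_sub_cancel_left, List.drop_eq_getElem_cons (by omega), List.take_succ_cons,
            List.take_zero]
        rw [h5]
      · rw [hps _ (orB_lt _ _ _ _)]
        have h5 : orB q (i + 1) j (fun k => btN q BT (V q lt (btN q BT) (psN q PS) i k)
            (V q lt (btN q BT) (psN q PS) k j)) =
            orB q (i + 1) j (fun k => 2 ^ (c (μ (seg w i k)) * N + c (μ (seg w k j)))) := by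
          refine orB_congr fun k hk1 hk2 => ?_
          rw [ih i k (by omega) (by omega) (by omega), ih k j (by omega) (by omega) (by omega),
            hbt]
        rw [h5]
        simp only [hpsf]
        congr 1
        rw [hμ (seg w i j) (by rw [seg_length w h3]; omega)]
        congr 1
        ext p
        simp only [Set.mem_ofPred_eq]
        rw [dig_orB]
        constructor
        · rintro ⟨_, k, hk1, hk2, hk3⟩
          rw [dig_two_pow] at hk3
          obtain ⟨h6, h7⟩ := pair_inj (hcN _) (hcN _) hk3
          refine ⟨seg w i k, seg w k j, ?_, ?_, seg_append w (by omega) (by omega), ?_⟩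
          · intro h8
            have h9 := seg_length w (i := i) (j := k) (by omega)
            rw [h8, List.length_nil] at h9
            omega
          · intro h8
            have h9 := seg_length w (i := k) (j := j) (by omega)
            rw [h8, List.length_nil] at h9
            omega
          · exact Prod.ext (hcinj _ _ h6) (hcinj _ _ h7)
        · rintro ⟨u, v, hu, hv, huv, hp⟩
          obtain ⟨h6, h7⟩ := seg_split w h3 (by omega) huv
          have hlen : u.length + v.length = j - i := by
            rw [← seg_length w h3, ← huv, List.length_append]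
          have hu' : 0 < u.length := List.length_pos_iff.2 hu
          have hv' : 0 < v.length := List.length_pos_iff.2 hv
          refine ⟨hidx _ _ (hcN _) (hcN _), i + u.length, by omega, by omega, ?_⟩
          rw [dig_two_pow, hp, ← h6, ← h7]
  have hwl : 0 < w.length := List.length_pos_iff.2 hw
  rw [key w.length 0 w.length (by omega) hwl le_rfl, hac]
  have h1 : seg w 0 w.length = w := by
    unfold seg
    simp
  rw [h1]
  exact hF w hw

end Pool.Agent.Helper15.BG.PkCODE
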