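import Pool.Agent.Helper30.BG.Goals

/-!
# Packet BG-SETUP (MP_66e6f4_an)
-/

open InnerProductSpace Metric Set Filter Topology MeasureTheory
open scoped ContDiff Laplacian

namespace Pool.Agent.Helper15.BG

open Pool.Agent.Helper30.BG

theorem coord_le (x y : E3) : |x 0 - y 0| ≤ ‖x - y‖ := by
  have := PiLp.norm_apply_le (x - y) 0
  simpa using this

theorem norm_refl (x : E3) : ‖refl 0 x‖ = ‖x‖ := by
  have h := dist_refl 0 x 0
  have h0 : refl 0 (0 : E3) = 0 := by
    unfold Pool.Agent.Helper30.BG.refl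
    simp
  rw [h0, sub_zero, sub_zero] at h
  exact h

theorem setup (hL : S_LEMS) : S_SETUP := by
  intro f u hf hfc hfn hu heq hlip hneg hpos halt
  obtain ⟨K0, hK0⟩ := hlip
  -- the interval
  obtain ⟨R0, hR0⟩ := hfc.isCompact.isBounded.subset_closedBall (0 : ℝ)
  have hout : ∀ v : ℝ, |R0| < |v| → f v = 0 := by
    intro v hv
    by_contra h
    have h1 : v ∈ tsupport f := subset_tsupport f h
    have h2 := hR0 h1
    rw [mem_closedBall, dist_zero_right, Real.norm_eq_abs] at h2
    exact absurd (h2.trans (le_abs_self R0)) (not_le.2 hv)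
  have hnl : Nonl f (-(|R0| + 1)) (|R0| + 1) := by
    refine ⟨hf, hfn, fun v hv => hout v ?_, fun v hv => hout v ?_, by
      have := abs_nonneg R0; linarith⟩
    · have h1 : v ≤ 0 := by have := abs_nonneg R0; linarith
      rw [abs_of_nonpos h1]; linarith
    · have h1 : 0 ≤ v := by have := abs_nonneg R0; linarith
      rw [abs_of_nonneg h1]; linarith
  -- the Lipschitz constant
  set K : ℝ := max K0 1 with hK
  have hK1 : 1 ≤ K := le_max_right _ _
  have hKlip : ∀ x y, |u x - u y| ≤ K * ‖x - y‖ := fun x y =>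
    (hK0 x y).trans (mul_le_mul_of_nonneg_right (le_max_left _ _) (norm_nonneg _))
  -- the set A
  set A : Set ℝ := {a | ∀ x : E3, 0 ≤ x 0 → u x ≤ a * x 0} with hA
  have hKA : K ∈ A := by
    intro x hx
    have h1 := hKlip x (x - x 0 • eb 0)
    have h2 : u (x - x 0 • eb 0) ≤ 0 := by
      refine hneg _ ?_
      simp [eb_apply]
    have h3 : ‖x - (x - x 0 • eb 0)‖ = x 0 := by
      rw [sub_sub_cancel, norm_smul, norm_eb, mul_one, Real.norm_eq_abs, abs_of_nonneg hx]
    rw [h3] at h1
    have h4 := (abs_le.1 h1).2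
    linarith
  obtain ⟨z, hz⟩ := hpos
  have hz0 : 0 < z 0 := by
    by_contra h
    exact absurd (hneg z (not_lt.1 h)) (not_le.2 hz)
  have hApos : ∀ a ∈ A, 0 < a := by
    intro a ha
    have h1 := ha z hz0.le
    by_contra h
    have h2 : a * z 0 ≤ 0 := mul_nonpos_of_nonpos_of_nonneg (not_lt.1 h) hz0.le
    linarith
  have hAbdd : BddBelow A := ⟨0, fun a ha => (hApos a ha).le⟩
  set α : ℝ := sInf A with hα
  have hαA : α ∈ A := by
    intro x hx
    rcases hx.eq_or_lt with h | h
    · rw [← h, mul_zero]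
      exact hneg x h.symm.le
    · have h1 : u x / x 0 ≤ α := le_csInf ⟨K, hKA⟩ fun a ha => by
        rw [div_le_iff₀ h]
        exact ha x hx
      rwa [div_le_iff₀ h] at h1
  have hαpos : 0 < α := hApos α hαA
  -- the set B
  set B : Set ℝ := {b | 0 ≤ b ∧ ∀ x : E3, x 0 ≤ 0 → u x ≤ b * x 0} with hB
  have h0B : (0 : ℝ) ∈ B := ⟨le_rfl, fun x hx => by rw [zero_mul]; exact hneg x hx⟩
  have hBbdd : BddAbove B := by
    refine ⟨-u (-eb 0), fun b hb => ?_⟩
    have h1 := hb.2 (-eb 0) (by simp [eb_apply])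
    have h2 : (-eb 0 : E3) 0 = -1 := by simp [eb_apply]
    rw [h2] at h1
    linarith
  set β : ℝ := sSup B with hβ
  have hβ0 : 0 ≤ β := le_csSup hBbdd h0B
  have hβB : β ∈ B := by
    refine ⟨hβ0, fun x hx => ?_⟩
    rcases hx.eq_or_lt with h | h
    · rw [h, mul_zero]
      exact hneg x h.le
    · have h1 : β ≤ u x / x 0 := csSup_le ⟨0, h0B⟩ fun b hb => by
        rw [le_div_iff_of_neg h]
        exact hb.2 x hx
      rwa [le_div_iff_of_neg h] at h1
  refine ⟨-(|R0| + 1), |R0| + 1, α, β, K, hnl, hu, heq, hKlip, by linarith, hαpos, hβ0, hαA, hβB.2, ?_, ?_, ?_⟩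
  · -- subp
    have hHD : ∀ x : E3, HD2 (fun y : E3 => α * y 0 - u y) x (α • Pi.single 0 1 - fun i => pd i u x)
        (α * 0 - Δ u x) := fun x => ((HD2.coord 0 x).const_mul α).sub (HD2.mk' hu.contDiffAt)
    have h := hL (fun y : E3 => α * y 0 - u y) (α + K)
      (contDiff_iff_contDiffAt.2 fun x => (hHD x).cd)
      (fun x y => ?_) (fun x _ => ?_) (fun x hx => ?_) ?_
    · exact h
    · have e : α * x 0 - u x - (α * y 0 - u y) = α * (x 0 - y 0) - (u x - u y) := by ring
      rw [e]
      calc |α * (x 0 - y 0) - (u x - u y)| ≤ |α * (x 0 - y 0)| + |u x - u y| := abs_sub _ _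
        _ ≤ α * ‖x - y‖ + K * ‖x - y‖ := by
          refine add_le_add ?_ (hKlip x y)
          rw [abs_mul, abs_of_pos hαpos]
          exact mul_le_mul_of_nonneg_left (coord_le x y) hαpos.le
        _ = (α + K) * ‖x - y‖ := by ring
    · rw [(hHD x).lap, heq x]
      have := hfn (u x)
      linarith
    · have := hαA x hx
      linarith
    · rintro ⟨c, hc, hcx⟩
      have h1 : α - c ∈ A := by
        intro x hx
        have := hcx x hx
        linarith
      have h2 := csInf_le hAbdd h1
      linarith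
  · -- subm
    have hHD : ∀ x : E3, ∃ p : Fin 3 → ℝ, HD2 (fun y : E3 => β * (refl 0 y) 0 - u (refl 0 y)) x p
        (β * 0 - Δ u (refl 0 x)) := fun x =>
      ⟨_, HD2.reflect (v := fun y : E3 => β * y 0 - u y)
        (((HD2.coord 0 (refl 0 x)).const_mul β).sub (HD2.mk' hu.contDiffAt))⟩
    have h := hL (fun y : E3 => β * (refl 0 y) 0 - u (refl 0 y)) (β + K)
      (contDiff_iff_contDiffAt.2 fun x => (hHD x).choose_spec.cd)
      (fun x y => ?_) (fun x _ => ?_) (fun x hx => ?_) ?_
    · intro δ hδ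
      obtain ⟨R, hR⟩ := h δ hδ
      refine ⟨R, fun x hx hRx => ?_⟩
      have h1 := hR (refl 0 x) (by rw [refl_zero]; linarith) (by rw [norm_refl]; exact hRx)
      rw [norm_refl] at h1
      simpa only [refl_refl] using h1
    · have e : β * (refl 0 x) 0 - u (refl 0 x) - (β * (refl 0 y) 0 - u (refl 0 y)) =
        β * ((refl 0 x) 0 - (refl 0 y) 0) - (u (refl 0 x) - u (refl 0 y)) := by ring
      rw [e]
      have hd := dist_refl 0 x y
      calc |β * ((refl 0 x) 0 - (refl 0 y) 0) - (u (refl 0 x) - u (refl 0 y))|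
          ≤ |β * ((refl 0 x) 0 - (refl 0 y) 0)| + |u (refl 0 x) - u (refl 0 y)| := abs_sub _ _
        _ ≤ β * ‖x - y‖ + K * ‖x - y‖ := by
          refine add_le_add ?_ ?_
          · rw [abs_mul, abs_of_nonneg hβ0, ← hd]
            exact mul_le_mul_of_nonneg_left (coord_le _ _) hβ0
          · rw [← hd]
            exact hKlip _ _
        _ = (β + K) * ‖x - y‖ := by ring
    · rw [(hHD x).choose_spec.lap, heq (refl 0 x)]
      have := hfn (u (refl 0 x))
      linarith
    · have := hβB.2 (refl 0 x) (by rw [refl_zero]; linarith)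
      linarith
    · rintro ⟨c, hc, hcx⟩
      have h1 : β + c ∈ B := by
        refine ⟨by linarith, fun x hx => ?_⟩
        have h2 := hcx (refl 0 x) (by rw [refl_zero]; linarith)
        simp only [refl_refl, refl_zero] at h2
        linarith
      have h2 := le_csSup hBbdd h1
      linarith
  · -- alt
    rcases halt with h | ⟨b, hb, hbx⟩
    · exact Or.inr h
    · left
      have h1 : b ∈ B := ⟨hb.le, hbx⟩
      have h2 := le_csSup hBbdd h1
      linarith

end Pool.Agent.Helper15.BG
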